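import Pool.Agent.Q72.EG.Stm

set_option autoImplicit false

/-! Project EG (helper72): basic lemmas on points of varieties given by a generic point. -/

namespace Pool.Agent.Q239.EG

open MvPolynomial Filter Topology Metric Pool.Agent.W996.EC Pool.Agent.Q72.EG

/-- points of `Pt ξ` specialise fractions -/
theorem pt_of_frac {E : Type} [Field E] [Algebra ℂ E] {σ τ : Type} {ξ : σ → E} {p : σ → ℂ}
    (hp : p ∈ Pt ξ) {s : MvPolynomial σ ℂ} (hs' : eval p s ≠ 0) {θ : τ → E}
    {q : τ → ℂ} (h : ∀ i, ∃ (a : MvPolynomial σ ℂ) (k : ℕ), θ i * aeval ξ s ^ k = aeval ξ a ∧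
      q i * eval p s ^ k = eval p a) : q ∈ Pt θ := by
  have key : ∀ g : MvPolynomial τ ℂ, ∃ (a : MvPolynomial σ ℂ) (k : ℕ),
      aeval θ g * aeval ξ s ^ k = aeval ξ a ∧ eval q g * eval p s ^ k = eval p a := by
    intro g
    induction g using MvPolynomial.induction_on with
    | C c => exact ⟨C c, 0, by simp, by simp⟩
    | add g1 g2 ih1 ih2 =>
      obtain ⟨a1, k1, e1, f1⟩ := ih1
      obtain ⟨a2, k2, e2, f2⟩ := ih2
      refine ⟨a1 * s ^ k2 + a2 * s ^ k1, k1 + k2, ?_, ?_⟩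
      · rw [map_add, map_add, map_mul, map_mul, map_pow, map_pow, ← e1, ← e2]; ring
      · rw [map_add, map_add, map_mul, map_mul, map_pow, map_pow, ← f1, ← f2]; ring
    | mul_X g i ih =>
      obtain ⟨a1, k1, e1, f1⟩ := ih
      obtain ⟨a2, k2, e2, f2⟩ := h i
      refine ⟨a1 * a2, k1 + k2, ?_, ?_⟩
      · rw [map_mul, map_mul, aeval_X, ← e1, ← e2]; ring
      · rw [map_mul, map_mul, eval_X, ← f1, ← f2]; ring
  intro g hg
  obtain ⟨a, k, e, f⟩ := key g
  rw [hg, zero_mul] at e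
  rw [hp a e.symm] at f
  exact (mul_eq_zero.1 f).resolve_right (pow_ne_zero _ hs')

variable {n : ℕ} {E : Type} [Field E] [Algebra ℂ E]

/-- a relation between `x` and `Y` is divisible by `P` -/
theorem dvd_of_rel (G : Gen n E) (A : MvPolynomial (Option (Fin n)) ℂ)
    (hA : aeval (oe (G.y G.i0 ^ G.ε) G.x) A = 0) (j : ℕ) : G.P ∣ cf A j := by
  classical
  by_contra hj
  have hex : ∃ j, ¬ G.P ∣ cf A j := ⟨j, hj⟩
  set j0 := Nat.find hex with hj0
  have h1 : ¬ G.P ∣ cf A j0 := Nat.find_spec hex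
  have h2 : ∀ i < j0, G.P ∣ cf A i := fun i hi => not_not.1 (Nat.find_min hex hi)
  set Y : E := G.y G.i0 ^ G.ε with hY
  have hY0 : Y ≠ 0 := zpow_ne_zero _ (G.hy _)
  have hv : G.O.valuation Y < 1 := G.hY
  have hv0 : 0 < G.O.valuation Y := by
    rw [zero_lt_iff]
    exact (Valuation.ne_zero_iff _).2 hY0
  rw [aeval_oe_sum] at hA
  have hcn : cf A j0 ≠ 0 := by
    intro h
    rw [h] at h1
    exact h1 (dvd_zero _)
  have hmem : j0 ∈ Finset.range ((optionEquivLeft ℂ (Fin n) A).natDegree + 1) := by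
    rw [Finset.mem_range, Nat.lt_succ_iff]
    exact Polynomial.le_natDegree_of_ne_zero hcn
  rw [← Finset.add_sum_erase _ _ hmem] at hA
  have h3 : aeval G.x (cf A j0) * Y ^ j0 =
      -∑ i ∈ (Finset.range ((optionEquivLeft ℂ (Fin n) A).natDegree + 1)).erase j0,
        aeval G.x (cf A i) * Y ^ i := eq_neg_of_add_eq_zero_left hA
  have h4 : G.O.valuation (aeval G.x (cf A j0) * Y ^ j0) = G.O.valuation Y ^ j0 := by
    rw [map_mul, map_pow, G.hO _ h1, one_mul]
  have h5 : G.O.valuation (∑ i ∈ (Finset.range ((optionEquivLeft ℂ (Fin n) A).natDegree + 1)).erase j0,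
        aeval G.x (cf A i) * Y ^ i) < G.O.valuation Y ^ j0 := by
    refine Valuation.map_sum_lt _ (pow_ne_zero _ hv0.ne') fun i hi => ?_
    rw [Finset.mem_erase] at hi
    by_cases hd : G.P ∣ cf A i
    · rw [(G.hx _).2 hd, zero_mul, map_zero]
      exact pow_pos hv0 _
    · rw [map_mul, map_pow, G.hO _ hd, one_mul]
      have : j0 < i := by
        rcases lt_trichotomy i j0 with h | h | h
        · exact absurd (h2 i h) hd
        · exact absurd h hi.1
        · exact h
      exact pow_lt_pow_right_of_lt_one₀ hv0 hv this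
  rw [h3, Valuation.map_neg] at h4
  exact h5.ne h4

theorem pt_zeta (G : Gen n E) {x : Fin n → ℂ} {Y : ℂ} (hx : eval x G.P = 0) :
    oe Y x ∈ Pt (oe (G.y G.i0 ^ G.ε) G.x) := by
  intro g hg
  rw [eval_oe_sum]
  refine Finset.sum_eq_zero fun j _ => ?_
  obtain ⟨c, hc⟩ := dvd_of_rel G g hg j
  rw [hc, map_mul, hx, zero_mul, zero_mul]

theorem exists_not_dvd (G : Gen n E) {Y : E} {H : MvPolynomial (Option (Fin n)) ℂ}
    (hH : aeval (oe Y G.x) H ≠ 0) : ∃ j, ¬ G.P ∣ cf H j := by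
  by_contra h
  push Not at h
  apply hH
  rw [aeval_oe_sum]
  refine Finset.sum_eq_zero fun j _ => ?_
  rw [(G.hx _).2 (h j), zero_mul]

/-- elements of the field generated by `x`, `Y` and polynomials in them and algebraic elements are algebraic -/
theorem alg_aeval {τ σ : Type} (ζ : τ → E) (v : σ → E)
    (hv : ∀ i, IsAlgebraic (IntermediateField.adjoin ℂ (Set.range ζ)) (v i)) (g : MvPolynomial σ ℂ) :
    IsAlgebraic (IntermediateField.adjoin ℂ (Set.range ζ)) (aeval v g) := by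
  induction g using MvPolynomial.induction_on with
  | C c =>
    rw [aeval_C]
    exact isAlgebraic_algebraMap (algebraMap ℂ (IntermediateField.adjoin ℂ (Set.range ζ)) c)
  | add g1 g2 ih1 ih2 => rw [map_add]; exact ih1.add ih2
  | mul_X g i ih => rw [map_mul, aeval_X]; exact ih.mul (hv i)

theorem alg_zeta {τ : Type} (ζ : τ → E) (i : τ) :
    IsAlgebraic (IntermediateField.adjoin ℂ (Set.range ζ)) (ζ i) :=
  isAlgebraic_algebraMap (⟨ζ i, IntermediateField.subset_adjoin _ _ ⟨i, rfl⟩⟩ :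
    IntermediateField.adjoin ℂ (Set.range ζ))

theorem alg_y (G : Gen n E) (l : Fin n) :
    IsAlgebraic (IntermediateField.adjoin ℂ (Set.range (oe (G.y G.i0 ^ G.ε) G.x))) (G.y l) :=
  G.halg l

theorem alg_xy (G : Gen n E) (g : MvPolynomial (Fin n ⊕ Fin n) ℂ) :
    IsAlgebraic (IntermediateField.adjoin ℂ (Set.range (oe (G.y G.i0 ^ G.ε) G.x)))
      (aeval (Sum.elim G.x G.y) g) := by
  refine alg_aeval _ _ (fun i => ?_) g
  rcases i with l | l
  · exact alg_zeta (oe (G.y G.i0 ^ G.ε) G.x) (some l)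
  · exact G.halg l

end Pool.Agent.Q239.EG
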