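import Pool.Agent.Q239.EG.Base
import Pool.Agent.H713R3.ZA.TROOT
import Pool.Agent.Sq58.Holo

set_option autoImplicit false

/-! Project EG (helper72), job CONT: analytic continuation of the point over a ball of admissible points. -/

namespace Pool.Agent.Q239.EG

open MvPolynomial Filter Topology Metric Pool.Agent.W996.EC Pool.Agent.Q72.EG

/-- a polynomial in holomorphic functions is holomorphic -/
theorem diff_eval {n : ℕ} {σ : Type} {U : Set (Fin n → ℂ)} {t : (Fin n → ℂ) → σ → ℂ}
    (ht : ∀ i, DifferentiableOn ℂ (fun u => t u i) U) (g : MvPolynomial σ ℂ) :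
    DifferentiableOn ℂ (fun u => eval (t u) g) U := by
  induction g using MvPolynomial.induction_on with
  | C c => simp only [eval_C]; exact differentiableOn_const c
  | add p q hp hq => simp only [map_add]; exact hp.add hq
  | mul_X p i hp => simp only [map_mul, eval_X]; exact hp.mul (ht i)

/-- roots of a polynomial with bounded coefficients and leading coefficient bounded below -/
theorem root_bound {p : Polynomial ℂ} {d : ℕ} (hd : p.natDegree ≤ d + 1) {A m M : ℝ} (hm : 0 < m)
    (hM : 0 ≤ M) (hA : 0 ≤ A) (hlead : m ≤ ‖p.coeff (d + 1)‖) (hc : ∀ j, ‖p.coeff j‖ ≤ A) {z : ℂ}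
    (hz : ‖p.eval z‖ ≤ M) : ‖z‖ ≤ (M + (d + 1) * A) / m + 1 := by
  by_cases h1 : ‖z‖ ≤ 1
  · have : 0 ≤ (M + (d + 1) * A) / m := by positivity
    linarith
  push Not at h1
  have e1 : p.eval z = ∑ j ∈ Finset.range (d + 1), p.coeff j * z ^ j + p.coeff (d + 1) * z ^ (d + 1) := by
    rw [Polynomial.eval_eq_sum_range' (Nat.lt_succ_of_le hd), Finset.sum_range_succ]
  have e2 : p.coeff (d + 1) * z ^ (d + 1) = p.eval z - ∑ j ∈ Finset.range (d + 1), p.coeff j * z ^ j := by
    rw [e1]; ring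
  have h2 : ‖p.coeff (d + 1) * z ^ (d + 1)‖ ≤ M + (d + 1) * A * ‖z‖ ^ d := by
    rw [e2]
    refine (norm_sub_le _ _).trans (add_le_add hz ?_)
    refine (norm_sum_le _ _).trans ?_
    have : ∀ j ∈ Finset.range (d + 1), ‖p.coeff j * z ^ j‖ ≤ A * ‖z‖ ^ d := by
      intro j hj
      rw [Finset.mem_range, Nat.lt_succ_iff] at hj
      rw [norm_mul, norm_pow]
      exact mul_le_mul (hc j) (pow_le_pow_right₀ h1.le hj) (by positivity) hA
    refine (Finset.sum_le_card_nsmul _ _ _ this).trans (le_of_eq ?_)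
    rw [Finset.card_range, nsmul_eq_mul]
    push_cast
    ring
  have hzd : 1 ≤ ‖z‖ ^ d := one_le_pow₀ h1.le
  have h3 : m * ‖z‖ * ‖z‖ ^ d ≤ (M + (d + 1) * A) * ‖z‖ ^ d := by
    rw [norm_mul, norm_pow] at h2
    calc m * ‖z‖ * ‖z‖ ^ d = m * ‖z‖ ^ (d + 1) := by ring
      _ ≤ ‖p.coeff (d + 1)‖ * ‖z‖ ^ (d + 1) := by gcongr
      _ ≤ M + (d + 1) * A * ‖z‖ ^ d := h2
      _ ≤ M * ‖z‖ ^ d + (d + 1) * A * ‖z‖ ^ d := by nlinarith
      _ = _ := by ring
  have h4 : m * ‖z‖ ≤ M + (d + 1) * A := le_of_mul_le_mul_right h3 (by positivity)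
  have h5 : ‖z‖ ≤ (M + (d + 1) * A) / m := by
    rw [le_div_iff₀ hm]; linarith
  linarith

/-- **job CONT** -/
theorem cont (h1 : S_dom) (h2 : S_alg) : S_cont := by
  classical
  intro n E _ _ G H hH
  set Y0 : E := G.y G.i0 ^ G.ε with hY0
  set ζ : Option (Fin n) → E := oe Y0 G.x with hζ
  set f : Fin n ⊕ (Fin n ⊕ Unit) → E := Sum.elim G.y (Sum.elim (fun l => (G.y l)⁻¹)
    (fun _ => (aeval (Sum.elim G.x G.y) H)⁻¹)) with hf
  have hfalg : ∀ k, IsAlgebraic (IntermediateField.adjoin ℂ (Set.range ζ)) (f k) := by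
    rintro (l | l | l)
    · exact G.halg l
    · exact (G.halg l).inv
    · exact (alg_xy G H).inv
  obtain ⟨Θ, H1, g, hH1, ha, hb, hc⟩ := h2 E (Option (Fin n)) (Fin n ⊕ (Fin n ⊕ Unit)) ζ f hfalg
  obtain ⟨R, hR, hdom⟩ := h1 n G.P H1 G.hP (exists_not_dvd G hH1)
  refine ⟨R, hR, fun R' hR' D => ?_⟩
  obtain ⟨K, hK, hdom'⟩ := hdom R' hR' D
  refine ⟨K, hK, ?_⟩
  intro T hT c ρ X Y hρ hX hY hadm y0 hy0 hy0n hy0Y hy0H
  set U : Set (Fin n → ℂ) := ball c ρ with hU
  have hcU : c ∈ U := mem_ball_self hρ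
  set t : (Fin n → ℂ) → Option (Fin n) → ℂ := fun u => oe (Y u) (X u) with ht
  have htP : ∀ u ∈ U, t u ∈ Pt ζ := fun u hu => pt_zeta G (hadm u hu).1
  have htH : ∀ u ∈ U, eval (t u) H1 ≠ 0 := fun u hu => hdom' T hT (X u) (Y u) (hadm u hu)
  have htd : ∀ i, DifferentiableOn ℂ (fun u => t u i) U := by
    rintro (_ | l)
    · exact hY
    · exact differentiableOn_pi.1 hX l
  -- the point over the centre
  set q0 : Fin n ⊕ (Fin n ⊕ Unit) → ℂ := Sum.elim y0 (Sum.elim (fun l => (y0 l)⁻¹)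
    (fun _ => (eval (Sum.elim (X c) y0) H)⁻¹)) with hq0
  have hpt0 : Sum.elim (t c) q0 ∈ Pt (Sum.elim ζ f) := by
    set s : MvPolynomial (Fin n ⊕ Fin n) ℂ := H * ∏ l, MvPolynomial.X (Sum.inr l) with hs
    have hsE : aeval (Sum.elim G.x G.y) s = aeval (Sum.elim G.x G.y) H * ∏ l, G.y l := by
      rw [hs, map_mul, map_prod]
      simp
    have hsC : eval (Sum.elim (X c) y0) s = eval (Sum.elim (X c) y0) H * ∏ l, y0 l := by
      rw [hs, map_mul, map_prod]
      simp
    have hinv : ∀ l : Fin n, ∃ (a : MvPolynomial (Fin n ⊕ Fin n) ℂ) (k : ℕ),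
        (G.y l)⁻¹ * aeval (Sum.elim G.x G.y) s ^ k = aeval (Sum.elim G.x G.y) a ∧
        (y0 l)⁻¹ * eval (Sum.elim (X c) y0) s ^ k = eval (Sum.elim (X c) y0) a := by
      intro l
      refine ⟨H * ∏ l' ∈ Finset.univ.erase l, MvPolynomial.X (Sum.inr l'), 1, ?_, ?_⟩
      · rw [pow_one, hsE, map_mul, map_prod, ← Finset.mul_prod_erase Finset.univ _ (Finset.mem_univ l)]
        simp only [aeval_X, Sum.elim_inr]
        have := G.hy l
        field_simp
      · rw [pow_one, hsC, map_mul, map_prod, ← Finset.mul_prod_erase Finset.univ _ (Finset.mem_univ l)]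
        simp only [eval_X, Sum.elim_inr]
        have := hy0n l
        field_simp
    refine pt_of_frac hy0 (s := s) ?_ ?_
    · rw [hsC]
      exact mul_ne_zero hy0H (Finset.prod_ne_zero_iff.2 fun l _ => hy0n l)
    · rintro ((_ | l) | (l | l | l))
      · -- Y
        show ∃ (a : MvPolynomial (Fin n ⊕ Fin n) ℂ) (k : ℕ),
          G.y G.i0 ^ G.ε * aeval (Sum.elim G.x G.y) s ^ k = aeval (Sum.elim G.x G.y) a ∧
          Y c * eval (Sum.elim (X c) y0) s ^ k = eval (Sum.elim (X c) y0) a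
        rw [← hy0Y]
        rcases G.hε with h | h
        · rw [h, zpow_one, zpow_one]
          exact ⟨MvPolynomial.X (Sum.inr G.i0), 0, by simp, by simp⟩
        · rw [h, zpow_neg_one, zpow_neg_one]
          exact hinv G.i0
      · exact ⟨MvPolynomial.X (Sum.inl l), 0, by simp [hζ], by simp [ht]⟩
      · exact ⟨MvPolynomial.X (Sum.inr l), 0, by simp [hf], by simp [hq0]⟩
      · exact hinv l
      · refine ⟨∏ l', MvPolynomial.X (Sum.inr l'), 1, ?_, ?_⟩
        · rw [pow_one, hsE, map_prod]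
          simp only [Sum.elim_inr, hf, aeval_X]
          field_simp
        · rw [pow_one, hsC, map_prod]
          simp only [Sum.elim_inr, hq0, eval_X]
          field_simp
  obtain ⟨z0, hz0, hz0'⟩ := hb (t c) q0 hpt0 (htH c hcU)
  -- the polynomial
  set F : (Fin n → ℂ) → ℂ → ℂ := fun u z => (Θ.map (eval (t u))).eval z with hF
  have hcoeff : ∀ u j, (Θ.map (eval (t u))).coeff j = eval (t u) (Θ.coeff j) := fun u j =>
    Polynomial.coeff_map _ _
  have hcd : ∀ j, DifferentiableOn ℂ (fun u => eval (t u) (Θ.coeff j)) U := fun j =>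
    diff_eval htd (Θ.coeff j)
  have hdeg : ∀ u ∈ U, (Θ.map (eval (t u))).natDegree = Θ.natDegree := fun u hu =>
    Polynomial.natDegree_map_of_leadingCoeff_ne_zero _ (ha (t u) (htP u hu) (htH u hu)).1
  obtain ⟨d, hd⟩ : ∃ d, Θ.natDegree = d + 1 := by
    have : Θ.natDegree ≠ 0 := by
      intro h0
      have h3 := hdeg c hcU
      rw [h0] at h3
      have h4 := Polynomial.eq_C_of_natDegree_eq_zero h3
      rw [h4, Polynomial.eval_C, hcoeff] at hz0
      apply (ha (t c) (htP c hcU) (htH c hcU)).1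
      rw [Polynomial.leadingCoeff, h0]
      exact hz0
    exact ⟨Θ.natDegree - 1, by omega⟩
  have hFsum : ∀ u ∈ U, ∀ z, F u z = ∑ j ∈ Finset.range (d + 2), eval (t u) (Θ.coeff j) * z ^ j := by
    intro u hu z
    simp only [hF]
    rw [Polynomial.eval_eq_sum_range, hdeg u hu, hd]
    simp only [hcoeff]
  have hFc : ContDiffOn ℂ 1 (fun p : (Fin n → ℂ) × ℂ => F p.1 p.2) (U ×ˢ Set.univ) := by
    have hopen : IsOpen (U ×ˢ (Set.univ : Set ℂ)) := isOpen_ball.prod isOpen_univ
    have h3 : DifferentiableOn ℂ (fun p : (Fin n → ℂ) × ℂ => F p.1 p.2) (U ×ˢ Set.univ) := by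
      have h4 : DifferentiableOn ℂ (fun p : (Fin n → ℂ) × ℂ =>
          ∑ j ∈ Finset.range (d + 2), eval (t p.1) (Θ.coeff j) * p.2 ^ j) (U ×ˢ Set.univ) := by
        refine DifferentiableOn.fun_sum fun j _ => ?_
        have h5 : DifferentiableOn ℂ (fun p : (Fin n → ℂ) × ℂ => eval (t p.1) (Θ.coeff j)) (U ×ˢ Set.univ) :=
          (hcd j).comp differentiableOn_fst fun p hp => hp.1
        exact h5.mul (differentiableOn_snd.pow j)
      exact h4.congr fun p hp => hFsum p.1 hp.1 p.2
    exact_mod_cast Sq58.Holo.contDiffOn_of_differentiableOn hopen h3 1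
  have hprop : ∀ C : Set (Fin n → ℂ), C ⊆ U → IsCompact C → ∀ M : ℝ, ∃ B : ℝ, ∀ s ∈ C, ∀ z,
      ‖F s z‖ ≤ M → ‖z‖ ≤ B := by
    intro C hCU hC M
    rcases C.eq_empty_or_nonempty with rfl | hne
    · exact ⟨0, fun s hs => absurd hs (Set.notMem_empty _)⟩
    have hbd : ∀ j, ∃ A : ℝ, ∀ s ∈ C, ‖eval (t s) (Θ.coeff j)‖ ≤ A := fun j =>
      hC.exists_bound_of_continuousOn ((hcd j).continuousOn.mono hCU)
    choose A hA using hbd
    obtain ⟨s1, hs1, hmin⟩ := hC.exists_isMinOn hne (((hcd (d + 1)).continuousOn.mono hCU).norm)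
    have hm : 0 < ‖eval (t s1) (Θ.coeff (d + 1))‖ := by
      rw [norm_pos_iff]
      have := (ha (t s1) (htP s1 (hCU hs1)) (htH s1 (hCU hs1))).1
      rwa [Polynomial.leadingCoeff, hd] at this
    have hAnn : ∀ j, 0 ≤ A j := fun j => (norm_nonneg _).trans (hA j s1 hs1)
    set A' : ℝ := ∑ j ∈ Finset.range (d + 2), A j with hA'
    have hA'0 : 0 ≤ A' := Finset.sum_nonneg fun j _ => hAnn j
    refine ⟨(|M| + (d + 1) * A') / ‖eval (t s1) (Θ.coeff (d + 1))‖ + 1, fun s hs z hz => ?_⟩
    refine root_bound (p := Θ.map (eval (t s))) (d := d) ?_ hm (abs_nonneg M) hA'0 ?_ ?_ (hz.trans (le_abs_self M))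
    · rw [hdeg s (hCU hs), hd]
    · rw [hcoeff]
      exact hmin hs
    · intro j
      rw [hcoeff]
      by_cases hj : j < d + 2
      · exact (hA j s hs).trans (Finset.single_le_sum (fun i _ => hAnn i) (Finset.mem_range.2 hj))
      · rw [Polynomial.coeff_eq_zero_of_natDegree_lt (by omega), map_zero, norm_zero]
        exact hA'0
  have hsimple : ∀ s ∈ U, ∀ z, F s z = 0 → deriv (F s) z ≠ 0 := by
    intro s hs z hz
    have h3 := (ha (t s) (htP s hs) (htH s hs)).2 z hz
    simp only [hF]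
    rwa [Polynomial.deriv]
  obtain ⟨Z, hZd, hZc, hZ, -⟩ := Pool.Agent.H713R3.ZA.ROOT.main U F isOpen_ball (convex_ball c ρ) hFc hprop
    hsimple c hcU z0 hz0
  -- the family
  set q : (Fin n → ℂ) → Fin n ⊕ (Fin n ⊕ Unit) → ℂ := fun u k =>
    ((g k).map (eval (t u))).eval (Z u) / eval (t u) H1 with hq
  have hqP : ∀ u ∈ U, Sum.elim (t u) (q u) ∈ Pt (Sum.elim ζ f) := fun u hu =>
    hc (t u) (htP u hu) (htH u hu) (Z u) (hZ u hu)
  refine ⟨fun u l => q u (Sum.inl l), ?_, ?_, ?_⟩
  · rw [differentiableOn_pi]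
    intro l
    simp only [hq, div_eq_mul_inv]
    refine DifferentiableOn.mul ?_ ((diff_eval htd H1).inv htH)
    have h3 : ∀ p : Polynomial (MvPolynomial (Option (Fin n)) ℂ),
        DifferentiableOn ℂ (fun u => (p.map (eval (t u))).eval (Z u)) U := by
      intro p
      induction p using Polynomial.induction_on' with
      | add p q hp hq =>
        simp only [Polynomial.map_add, Polynomial.eval_add]
        exact hp.add hq
      | monomial m a =>
        simp only [Polynomial.map_monomial, Polynomial.eval_monomial]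
        exact (diff_eval htd a).mul (hZd.pow m)
    exact h3 _
  · funext l
    simp only [hq]
    rw [hZc, ← hz0' (Sum.inl l), mul_div_cancel_left₀ _ (htH c hcU)]
    rfl
  · intro u hu
    have hP := hqP u hu
    have hyinv : ∀ l, q u (Sum.inl l) * q u (Sum.inr (Sum.inl l)) = 1 := by
      intro l
      have := hP (MvPolynomial.X (Sum.inr (Sum.inl l)) * MvPolynomial.X (Sum.inr (Sum.inr (Sum.inl l))) - 1) (by
        simp only [map_sub, map_mul, aeval_X, map_one, Sum.elim_inr, hf, Sum.elim_inl]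
        rw [mul_inv_cancel₀ (G.hy l), sub_self])
      simp only [map_sub, map_mul, eval_X, map_one, Sum.elim_inr] at this
      linear_combination this
    have hyn : ∀ l, q u (Sum.inl l) ≠ 0 := by
      intro l h
      have := hyinv l
      rw [h, zero_mul] at this
      exact zero_ne_one this
    -- transport of relations
    set r : Fin n ⊕ Fin n → Option (Fin n) ⊕ (Fin n ⊕ (Fin n ⊕ Unit)) :=
      Sum.elim (fun l => Sum.inl (some l)) (fun l => Sum.inr (Sum.inl l)) with hr
    have hrE : (Sum.elim ζ f) ∘ r = Sum.elim G.x G.y := by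
      funext i
      rcases i with l | l
      · simp [hr, hζ]
      · simp [hr, hf]
    have hrC : (Sum.elim (t u) (q u)) ∘ r = Sum.elim (X u) (fun l => q u (Sum.inl l)) := by
      funext i
      rcases i with l | l
      · simp [hr, ht]
      · simp [hr]
    refine ⟨?_, hyn, ?_, ?_⟩
    · intro g' hg'
      have := hP (rename r g') (by rw [aeval_rename, hrE]; exact hg')
      rwa [eval_rename, hrC] at this
    · rcases G.hε with h | h
      · have := hP (MvPolynomial.X (Sum.inl none) - MvPolynomial.X (Sum.inr (Sum.inl G.i0))) (by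
          simp only [map_sub, aeval_X, Sum.elim_inl, Sum.elim_inr, hζ, hf, oe_none, hY0]
          rw [h, zpow_one, sub_self])
        simp only [map_sub, eval_X, Sum.elim_inl, Sum.elim_inr, ht, oe_none] at this
        rw [h, zpow_one]
        linear_combination -this
      · have := hP (MvPolynomial.X (Sum.inl none) - MvPolynomial.X (Sum.inr (Sum.inr (Sum.inl G.i0)))) (by
          simp only [map_sub, aeval_X, Sum.elim_inl, Sum.elim_inr, hζ, hf, oe_none, hY0]
          rw [h, zpow_neg_one, sub_self])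
        simp only [map_sub, eval_X, Sum.elim_inl, Sum.elim_inr, ht, oe_none] at this
        rw [h, zpow_neg_one, inv_eq_of_mul_eq_one_right (hyinv G.i0)]
        linear_combination -this
    · intro h0
      have := hP (rename r H * MvPolynomial.X (Sum.inr (Sum.inr (Sum.inr ()))) - 1) (by
        simp only [map_sub, map_mul, aeval_X, map_one, Sum.elim_inr, hf]
        have hE : aeval (Sum.elim ζ (Sum.elim G.y (Sum.elim (fun l => (G.y l)⁻¹)
            (fun _ => (aeval (Sum.elim G.x G.y) H)⁻¹)))) (rename r H) = aeval (Sum.elim G.x G.y) H := by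
          rw [← hf, aeval_rename, hrE]
        rw [hE, mul_inv_cancel₀ hH, sub_self])
      simp only [map_sub, map_mul, eval_X, map_one, Sum.elim_inr] at this
      rw [eval_rename, hrC, h0, zero_mul, zero_sub, neg_eq_zero] at this
      exact one_ne_zero this

end Pool.Agent.Q239.EG
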