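import Pool.Agent.Q72.EG.Stm

set_option autoImplicit false

/-! Project EG (helper72), job SOLVE: the core theorem. -/

namespace Pool.Agent.Q239.EG

open MvPolynomial Filter Topology Metric Pool.Agent.W996.EC Pool.Agent.Q72.EG

/-- **job SOLVE** -/
theorem solve (h1 : S_lift) (h2 : S_cont) (h3 : S_slc) (h4 : S_log) (h5 : S_bc) (h6 : S_fix) :
    S_solve := by
  intro n E _ _ G H hH hreg
  obtain ⟨R1, hR1, H1⟩ := h1 n E G H hH
  obtain ⟨R2, hR2, H2⟩ := h2 n E G H hH
  obtain ⟨R3, hR3, H3⟩ := h3 n E G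
  have hprime : Prime G.P := G.hP.prime
  set R := R1 * R2 * R3 with hR
  have hPR : ¬ G.P ∣ R := by
    intro h
    rcases hprime.dvd_or_dvd h with h | h
    · rcases hprime.dvd_or_dvd h with h | h
      · exact hR1 h
      · exact hR2 h
    · exact hR3 h
  have d1 : R1 ∣ R := ⟨R2 * R3, by rw [hR]; ring⟩
  have d2 : R2 ∣ R := ⟨R1 * R3, by rw [hR]; ring⟩
  have d3 : R3 ∣ R := ⟨R1 * R2, by rw [hR]; ring⟩
  obtain ⟨D, hD⟩ := hreg R hPR
  obtain ⟨D1, K1, hK1, G1⟩ := H1 R d1 D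
  obtain ⟨K2, hK2, G2⟩ := H2 R d2 D
  obtain ⟨D3, K3, hK3, G3⟩ := H3 R d3 D D1
  set K : ℝ := K1 + K2 + K3 + 96 * |D3| + 240 with hK
  have hD3 : 0 ≤ |D3| := abs_nonneg _
  have k1 : K1 ≤ K := by rw [hK]; linarith
  have k2 : K2 ≤ K := by rw [hK]; linarith
  have k3 : K3 ≤ K := by rw [hK]; linarith
  have hK0 : 0 < K := by rw [hK]; linarith
  obtain ⟨T, hKT, hT2, M, w, hw, hball⟩ := hD K
  have hT1 : 1 ≤ T := by linarith
  have hlog2 : (0.69 : ℝ) ≤ Real.log T := by
    have := Real.log_le_log (by norm_num) hT2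
    linarith [Real.log_two_gt_d9]
  have hlog : 0 < Real.log T := by linarith
  set c : Fin n → ℂ := fun l => 2 * Real.pi * Complex.I * (M l : ℂ) with hc
  set ρ : ℝ := K * Real.log T with hρ
  have hρ0 : 0 < ρ := mul_pos hK0 hlog
  set X : (Fin n → ℂ) → Fin n → ℂ := fun u l => u l + w u * (G.a l : ℂ) with hX
  set Y : (Fin n → ℂ) → ℂ := fun u => Complex.exp (w u) with hY
  have hXd : DifferentiableOn ℂ X (ball c ρ) := by
    rw [differentiableOn_pi]
    intro l
    have e1 : DifferentiableOn ℂ (fun u : Fin n → ℂ => u l) (ball c ρ) := differentiableOn_apply l _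
    exact e1.add (hw.mul_const _)
  have hYd : DifferentiableOn ℂ Y (ball c ρ) := hw.cexp
  have hadm : ∀ u ∈ ball c ρ, Adm G.P R D K T (X u) (Y u) := by
    intro u hu
    obtain ⟨b1, b2, b3, b4⟩ := hball u hu
    refine ⟨b1, Complex.exp_ne_zero _, b3, b4, ?_⟩
    rw [hY]
    simp only [Complex.norm_exp]
    rw [Real.rpow_def_of_pos (by linarith)]
    apply Real.exp_le_exp.2
    refine b2.trans (le_of_eq ?_)
    rw [hρ]; ring
  have hcb : c ∈ ball c ρ := mem_ball_self hρ0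
  obtain ⟨y0, p1, p2, p3, p4, p5⟩ := G1 T (k1.trans hKT) (X c) (Y c) ((hadm c hcb).mono k1 hT1)
  obtain ⟨y, hyd, hyc, hy⟩ := G2 T (k2.trans hKT) c ρ X Y hρ0 hXd hYd
    (fun u hu => (hadm u hu).mono k2 hT1) y0 p1 p2 p3 p4
  have hslc := G3 T (k3.trans hKT) c ρ X Y y hρ0 hYd.continuousOn hyd.continuousOn
    (fun u hu => (hadm u hu).mono k3 hT1) (fun u hu => ⟨(hy u hu).1, (hy u hu).2.1, (hy u hu).2.2.1⟩)
    (fun l => by rw [hyc]; exact p5 l)
  have hlogY : ∀ u, Real.log ‖Y u‖ = (w u).re := by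
    intro u
    rw [hY]
    simp only [Complex.norm_exp, Real.log_exp]
  -- the logarithms
  have hex : ∀ l : Fin n, ∃ h : (Fin n → ℂ) → ℂ, DifferentiableOn ℂ h (ball c ρ) ∧
      (∀ u ∈ ball c ρ, Complex.exp (h u) = y u l * Complex.exp (-(G.a l * w u))) ∧
      |(h c).im| ≤ Real.pi := by
    intro l
    refine h4 n c ρ (fun u => y u l * Complex.exp (-(G.a l * w u))) hρ0 ?_ ?_
    · exact (differentiableOn_pi.1 hyd l).mul ((hw.const_mul _).neg.cexp)
    · intro u hu
      exact mul_ne_zero ((hy u hu).2.1 l) (Complex.exp_ne_zero _)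
  choose h hhd hhe hhc using hex
  set B : ℝ := |D3| * Real.log T with hB
  have hB0 : 0 ≤ B := mul_nonneg hD3 hlog.le
  have hre : ∀ l, ∀ u ∈ ball c ρ, |(h l u).re| ≤ B := by
    intro l u hu
    have e1 : Real.exp ((h l u).re) = ‖y u l‖ * Real.exp (-(G.a l * (w u).re)) := by
      rw [← Complex.norm_exp, hhe l u hu, norm_mul, Complex.norm_exp]
      congr 2
      rw [Complex.neg_re, Complex.re_ofReal_mul]
    have hy0 : 0 < ‖y u l‖ := norm_pos_iff.2 ((hy u hu).2.1 l)
    have e2 : (h l u).re = Real.log ‖y u l‖ - G.a l * Real.log ‖Y u‖ := by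
      have := congrArg Real.log e1
      rw [Real.log_exp, Real.log_mul hy0.ne' (Real.exp_pos _).ne', Real.log_exp] at this
      rw [this, hlogY]
      ring
    rw [e2]
    refine (hslc u hu l).trans ?_
    exact mul_le_mul_of_nonneg_right (le_abs_self D3) hlog.le
  have hbd : ∀ l, ∀ u ∈ ball c (ρ / 2), ‖h l u‖ ≤ 6 * B + 10 := fun l =>
    h5 n c ρ B (h l) hρ0 hB0 (hhd l) (hre l) (hhc l)
  have hsub : ball c (ρ / 2) ⊆ ball c ρ := ball_subset_ball (by linarith)
  obtain ⟨u, hu, hfix⟩ := h6 n c (ρ / 2) (6 * B + 10) (fun u l => h l u) (by linarith)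
    (differentiableOn_pi.2 fun l => (hhd l).mono hsub)
    (fun u hu => (pi_norm_le_iff_of_nonneg (by linarith)).2 fun l => hbd l u hu) (by
      rw [hρ, hB, hK]
      nlinarith)
  have hu' := hsub hu
  have hexp : (fun l => Complex.exp (X u l)) = y u := by
    funext l
    have e1 : X u l = 2 * Real.pi * Complex.I * (M l : ℂ) + h l u + w u * (G.a l : ℂ) := by
      have := congrFun hfix l
      simp only [Pi.add_apply, hc] at this
      simp only [hX]
      rw [← this]
    have e2 : Complex.exp (2 * Real.pi * Complex.I * (M l : ℂ)) = 1 := by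
      have := Complex.exp_int_mul_two_pi_mul_I (M l)
      rw [← this]; congr 1; ring
    rw [e1, Complex.exp_add, Complex.exp_add, e2, one_mul, hhe l u hu', mul_assoc, ← Complex.exp_add]
    have : -((G.a l : ℂ) * w u) + w u * (G.a l : ℂ) = 0 := by ring
    rw [this, Complex.exp_zero, mul_one]
  refine ⟨X u, ?_, ?_⟩
  · rw [hexp]; exact (hy u hu').1
  · rw [hexp]; exact (hy u hu').2.2.2

end Pool.Agent.Q239.EG
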